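import Pool.Agent.Y381.UC.Defs

/-!
# Total number of balls and sum of squares after one step
-/

set_option autoImplicit false

open Finset Pool.Agent.TH996.Urn Pool.Agent.Y381.UC

namespace Pool.Agent.Y693.UC

variable {n s : ℕ}

theorem nbr_ne (v : Fin (n + 4)) : v + 1 ≠ v - 1 := by
  intro h
  have h1 : (1 : Fin (n + 4)) + 1 = 0 := by
    have h2 : v + 1 + 1 = v := by
      rw [h]
      exact sub_add_cancel v 1
    have h3 : v + (1 + 1) = v + 0 := by
      rw [← add_assoc, h2, add_zero]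
    exact add_left_cancel h3
  have h4 := congrArg Fin.val h1
  rw [Fin.val_add] at h4
  have h5 : ((1 : Fin (n + 4)) : ℕ) = 1 := by
    rw [Fin.val_one']
    exact Nat.mod_eq_of_lt (by omega)
  have h6 : ((0 : Fin (n + 4)) : ℕ) = 0 := rfl
  rw [h5, h6, Nat.mod_eq_of_lt (by omega)] at h4
  omega

theorem sum_split (v : Fin (n + 4)) (F : Fin (n + 4) → ℝ)
    (h : ∀ w, ¬ (w = v + 1 ∨ v = w + 1) → F w = 0) : ∑ w, F w = F (v + 1) + F (v - 1) := by
  refine Fintype.sum_eq_add (v + 1) (v - 1) (nbr_ne v) ?_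
  rintro w ⟨h1, h2⟩
  apply h
  rintro (h3 | h3)
  · exact h1 h3
  · apply h2
    rw [h3, add_sub_cancel_right]

theorem total_eq (x : Config (Fin (n + 4)) s) : (total x : ℝ) = ∑ w, (nb x w : ℝ) := by
  unfold total nb
  push_cast
  rfl

/-- the change of the square at a neighbour -/
theorem sq_change {a b : ℕ} {p : Prop} [Decidable p] (h1 : a = 0 → b = 1)
    (h2 : p → b = a + 1) (h3 : ¬ p → a ≠ 0 → b + 1 = a) :
    ((b : ℝ) ^ 2 - (a : ℝ) ^ 2 = 2 * ((if p then (1 : ℝ) else -1) * a) + 1) ∧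
      |(b : ℝ) - a| ≤ 1 := by
  by_cases ha : a = 0
  · have hb := h1 ha
    rw [ha, hb]
    norm_num
  · by_cases hp : p
    · have hb := h2 hp
      rw [if_pos hp, hb]
      push_cast
      constructor
      · ring
      · rw [add_sub_cancel_left, abs_one]
    · have hb := h3 hp ha
      have hb' : (b : ℝ) = a - 1 := by
        have : (b : ℝ) + 1 = a := by exact_mod_cast hb
        linarith
      rw [if_neg hp, hb']
      constructor
      · ring
      · rw [sub_sub_cancel_left, abs_neg, abs_one]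

theorem t_TZ (hN : S_NB) : S_TZ := by
  classical
  intro n s x χ hC hT
  have hT0 : (total x : ℝ) ≠ 0 := by exact_mod_cast hT.ne'
  have hloc : ∀ v c, 0 < x v c → ∀ w,
      (¬ (w = v + 1 ∨ v = w + 1) →
        nb (step (SimpleGraph.cycleGraph (n + 4)) x v c) w = nb x w) ∧
      ((w = v + 1 ∨ v = w + 1) →
        ((nb (step (SimpleGraph.cycleGraph (n + 4)) x v c) w : ℝ) ^ 2 - (nb x w : ℝ) ^ 2 =
          2 * ((if χ w = χ v then (1 : ℝ) else -1) * nb x w) + 1) ∧
        |(nb (step (SimpleGraph.cycleGraph (n + 4)) x v c) w : ℝ) - nb x w| ≤ 1) := by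
    intro v c hv w
    obtain ⟨g1, g2, g3, g4, -⟩ := hN n s x χ v w c hC hv
    refine ⟨g1, fun hw => sq_change (g2 hw) (g3 hw) (g4 hw)⟩
  have hvm : ∀ v : Fin (n + 4), v = (v - 1) + 1 := fun v => (sub_add_cancel v 1).symm
  have hZ : ∀ v c, 0 < x v c → ZZ (step (SimpleGraph.cycleGraph (n + 4)) x v c) =
      ZZ x + 2 * (tau χ v * nb x (v + 1)) + 2 * (tau χ (v - 1) * nb x (v - 1)) + 2 := by
    intro v c hv
    have h1 : ZZ (step (SimpleGraph.cycleGraph (n + 4)) x v c) - ZZ x =
        ∑ w, ((nb (step (SimpleGraph.cycleGraph (n + 4)) x v c) w : ℝ) ^ 2 -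
          (nb x w : ℝ) ^ 2) := by
      unfold ZZ
      rw [Finset.sum_sub_distrib]
    rw [sum_split v _ (fun w hw => by rw [(hloc v c hv w).1 hw, sub_self]),
      ((hloc v c hv (v + 1)).2 (Or.inl rfl)).1, ((hloc v c hv (v - 1)).2 (Or.inr (hvm v))).1] at h1
    have e1 : (if χ (v + 1) = χ v then (1 : ℝ) else -1) = tau χ v := by
      unfold tau
      by_cases h : χ v = χ (v + 1)
      · rw [if_pos h, if_pos h.symm]
      · rw [if_neg h, if_neg (fun h' => h h'.symm)]
    have e2 : (if χ (v - 1) = χ v then (1 : ℝ) else -1) = tau χ (v - 1) := by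
      unfold tau
      rw [← hvm v]
    rw [e1, e2] at h1
    linarith
  constructor
  · intro v c hv
    have h1 : (total (step (SimpleGraph.cycleGraph (n + 4)) x v c) : ℝ) - total x =
        ∑ w, ((nb (step (SimpleGraph.cycleGraph (n + 4)) x v c) w : ℝ) - (nb x w : ℝ)) := by
      rw [total_eq, total_eq, Finset.sum_sub_distrib]
    rw [h1, sum_split v _ (fun w hw => by rw [(hloc v c hv w).1 hw, sub_self])]
    have h2 := ((hloc v c hv (v + 1)).2 (Or.inl rfl)).2
    have h3 := ((hloc v c hv (v - 1)).2 (Or.inr (hvm v))).2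
    exact (abs_add_le _ _).trans (by linarith)
  · have h1 : ∀ v : Fin (n + 4), ∑ c, (x v c : ℝ) / (total x : ℝ) *
        ZZ (step (SimpleGraph.cycleGraph (n + 4)) x v c) =
        (nb x v : ℝ) / (total x : ℝ) *
          (ZZ x + 2 * (tau χ v * nb x (v + 1)) + 2 * (tau χ (v - 1) * nb x (v - 1)) + 2) := by
      intro v
      have h2 : ∀ c, (x v c : ℝ) / (total x : ℝ) *
          ZZ (step (SimpleGraph.cycleGraph (n + 4)) x v c) = (x v c : ℝ) / (total x : ℝ) *
            (ZZ x + 2 * (tau χ v * nb x (v + 1)) + 2 * (tau χ (v - 1) * nb x (v - 1)) + 2) := by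
        intro c
        rcases Nat.eq_zero_or_pos (x v c) with h0 | h0
        · rw [h0]; simp
        · rw [hZ v c h0]
      rw [Finset.sum_congr rfl (fun c _ => h2 c), ← Finset.sum_mul, ← Finset.sum_div]
      congr 2
      unfold nb
      push_cast
      rfl
    rw [Finset.sum_congr rfl (fun v _ => h1 v)]
    have h3 : ∑ v : Fin (n + 4), (nb x v : ℝ) * (tau χ (v - 1) * nb x (v - 1)) =
        ∑ v : Fin (n + 4), tau χ v * (nb x v * nb x (v + 1)) := by
      rw [← Equiv.sum_comp (Equiv.addRight (1 : Fin (n + 4)))]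
      refine Finset.sum_congr rfl fun v _ => ?_
      simp only [Equiv.coe_addRight, add_sub_cancel_right]
      ring
    have h4 : ∀ v : Fin (n + 4), (nb x v : ℝ) / (total x : ℝ) *
        (ZZ x + 2 * (tau χ v * nb x (v + 1)) + 2 * (tau χ (v - 1) * nb x (v - 1)) + 2) =
        (ZZ x + 2) / total x * nb x v + 2 / total x * (tau χ v * (nb x v * nb x (v + 1))) +
          2 / total x * (nb x v * (tau χ (v - 1) * nb x (v - 1))) := by
      intro v
      ring
    rw [Finset.sum_congr rfl (fun v _ => h4 v), Finset.sum_add_distrib, Finset.sum_add_distrib,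
      ← Finset.mul_sum, ← Finset.mul_sum, ← Finset.mul_sum, h3, ← total_eq]
    unfold MM
    field_simp
    ring

end Pool.Agent.Y693.UC
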